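import Pool.Agent.Helper13.PS.St

/-! Project PS (MP_77ff3d_nt), module Je: Jensen for finite sums, real exponent. -/

set_option autoImplicit false

noncomputable section

namespace Pool.Agent.Helper2.PS

open Finset Pool.Agent.Helper76.ND Pool.Agent.Helper13.PS

theorem hJe : StJe := by
  intro ι t w z q hq hw hz
  obtain ⟨A, hA⟩ : ∃ A, A = ∑ i ∈ t, w i := ⟨_, rfl⟩
  have hA0 : 0 ≤ A := by rw [hA]; exact sum_nonneg hw
  rw [← hA]
  have hq0 : 0 < q := by linarith
  rcases eq_or_lt_of_le hA0 with h0 | h0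
  · have hw0 : ∀ i ∈ t, w i = 0 := by
      rw [← h0] at hA
      exact (sum_eq_zero_iff_of_nonneg hw).1 hA.symm
    have e1 : ∑ i ∈ t, w i * z i = 0 := sum_eq_zero fun i hi => by rw [hw0 i hi, zero_mul]
    rw [e1, Real.zero_rpow hq0.ne']
    refine mul_nonneg (Real.rpow_nonneg hA0 _) (sum_nonneg fun i hi => ?_)
    exact mul_nonneg (hw i hi) (Real.rpow_nonneg (hz i hi) _)
  · have hJ := Real.rpow_arith_mean_le_arith_mean_rpow t (fun i => w i / A) z
      (fun i hi => div_nonneg (hw i hi) hA0) (by rw [← sum_div, ← hA]; exact div_self h0.ne') hz hq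
    have e1 : ∑ i ∈ t, w i / A * z i = (∑ i ∈ t, w i * z i) / A := by
      rw [sum_div]; exact sum_congr rfl fun i _ => by ring
    have e2 : ∑ i ∈ t, w i / A * z i ^ q = (∑ i ∈ t, w i * z i ^ q) / A := by
      rw [sum_div]; exact sum_congr rfl fun i _ => by ring
    have hs : 0 ≤ ∑ i ∈ t, w i * z i := sum_nonneg fun i hi => mul_nonneg (hw i hi) (hz i hi)
    simp only [e1, e2] at hJ
    rw [Real.div_rpow hs hA0, div_le_div_iff₀ (Real.rpow_pos_of_pos h0 q) h0] at hJ
    have e3 : A ^ q = A ^ (q - 1) * A := by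
      rw [← Real.rpow_add_one h0.ne']; congr 1; ring
    rw [e3] at hJ
    refine le_of_mul_le_mul_right (hJ.trans (le_of_eq ?_)) h0
    ring

end Pool.Agent.Helper2.PS
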