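import Pool.Agent.Helper13.PS.St

/-! Project PS (MP_77ff3d_nt), module PF: the `L^q` norms for all `j`. -/

set_option autoImplicit false

noncomputable section

namespace Pool.Agent.Helper2.PS

open Finset Pool.Agent.Helper76.ND Pool.Agent.Helper13.PS

theorem hPF (hPA : StPA) (hPD : StPD) (hPE : StPE) : StPF := by
  intro δ hδ hδ1
  obtain ⟨n, hn, hE⟩ := hPE δ hδ
  refine ⟨n, hn, fun K j => ?_⟩
  obtain ⟨p1, _, p3, p4⟩ := hPA
  have hn0 : (0 : ℝ) < n := by exact_mod_cast hn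
  obtain ⟨q, hq⟩ : ∃ q, q = 1 + 1 / (n : ℝ) := ⟨_, rfl⟩
  have hq1 : 1 ≤ q := by
    rw [hq]
    have : 0 ≤ 1 / (n : ℝ) := by positivity
    linarith
  rw [← hq]
  have hE' : Sq K n q ≤ (3 : ℝ) ^ (δ - 1) := by rw [hq]; exact hE K
  have hSq0 : ∀ b, 0 ≤ Sq K b q := fun b => sum_nonneg fun M _ => Real.rpow_nonneg (p1 K b M) _
  have hSq1 : ∀ b, Sq K b q ≤ 1 := by
    intro b
    refine le_trans (sum_le_sum fun M _ => ?_) (p3 K b)
    have := Real.rpow_le_rpow_of_exponent_ge' (p1 K b M) (p4 K b M) zero_le_one hq1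
    rwa [Real.rpow_one] at this
  have hc0 : (0 : ℝ) ≤ (3 : ℝ) ^ (δ - 1) := by positivity
  have hind : ∀ a b : ℕ, Sq K (n * a + b) q ≤ ((3 : ℝ) ^ (δ - 1)) ^ a := by
    intro a b
    induction a with
    | zero => simpa using hSq1 b
    | succ a ih =>
      have e : n * (a + 1) + b = n + (n * a + b) := by ring
      rw [e, pow_succ']
      exact (hPD K n (n * a + b) q hq1).trans (mul_le_mul hE' ih (hSq0 _) hc0)
  have h := hind (j / n) (j % n)
  rw [Nat.div_add_mod] at h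
  refine h.trans ?_
  rw [← Real.rpow_natCast, ← Real.rpow_mul (by norm_num)]
  have e : (3 : ℝ) * 3 ^ (-((1 - δ) * j / n)) = 3 ^ (1 + -((1 - δ) * j / n)) := by
    rw [Real.rpow_add (by norm_num), Real.rpow_one]
  rw [e]
  refine Real.rpow_le_rpow_of_exponent_le (by norm_num) ?_
  have ha : (j : ℝ) / n - 1 ≤ ((j / n : ℕ) : ℝ) := by
    have h1 : j < n * (j / n + 1) := by
      have := Nat.lt_mul_div_succ j hn
      simpa using this
    have h2 : (j : ℝ) < n * (((j / n : ℕ) : ℝ) + 1) := by exact_mod_cast h1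
    have h3 : (j : ℝ) / n < ((j / n : ℕ) : ℝ) + 1 := by
      rw [div_lt_iff₀ hn0]; linarith
    linarith
  have hj : (1 - δ) * j / n = (1 - δ) * (j / n) := by ring
  rw [hj]
  nlinarith

end Pool.Agent.Helper2.PS
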